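import Pool.Agent.Work.MP_3617d5_eu.Def
import Pool.Agent.Work.MP_3617d5_ea.Skel

/-!
# MP_3617d5_al, THEOREM EU: the theorem from the blocks UC and UT; arbitrary universes
-/

set_option autoImplicit false

universe u v

namespace Pool.EU

open Pool.NR Pool.EA

open scoped commutatorElement

theorem blk_EU (hUC : S_UC.{u}) (hUT : S_UT.{u}) : S_EU.{u} := by
  intro p n m hp hn hm G _ hG hlf hGE A _ φ hker U hφU hUE hx
  obtain ⟨m', h1, h3, h4⟩ := SK_one hp hm hUE
  obtain ⟨S, _, I, η, H, hηker, hI, hnil, hHE, hηH, hunit, hcomm⟩ :=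
    hUT p m' hp G hG hlf A φ U hφU h4 hx
  have hf : Group.IsSolvable (η.codRestrict H (fun g => hηH ⟨g, rfl⟩)).ker := by
    rw [MonoidHom.ker_codRestrict, hηker]
    exact hker
  refine p_PU2 (p_SOL (p_EXT (p_NAC p_ABE))) G H p n hp hn hG hGE
    (η.codRestrict H (fun g => hηH ⟨g, rfl⟩)) hf ?_
  intro g
  obtain ⟨e, he⟩ := hG g
  exact hUC p m' hp h1 h3 S I hI hnil H hHE hunit hcomm _ e (by rw [← map_pow, he, map_one])

namespace FIN

theorem engel_of_injective {n : ℕ} {G : Type u} [Group G] {K : Type v} [Group K] (f : G →* K)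
    (hf : Function.Injective f) (h : Engel n K) : Engel n G := by
  intro x y
  apply hf
  rw [map_one]
  have h1 : ∀ k : ℕ, f ((fun z : G => z⁻¹ * x⁻¹ * z * x)^[k] y) =
      (fun z : K => z⁻¹ * (f x)⁻¹ * z * f x)^[k] (f y) := by
    intro k
    induction k with
    | zero => rfl
    | succ k ih =>
      rw [Function.iterate_succ_apply', Function.iterate_succ_apply', ← ih]
      simp only [map_mul, map_inv]
  rw [h1]
  exact h (f x) (f y)

theorem fitting_of_equiv {G : Type u} [Group G] {K : Type v} [Group K] (e : G ≃* K)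
    (h : Fitting K) : Fitting G := by
  intro g
  obtain ⟨H, hN, hH, hg⟩ := h (e g)
  refine ⟨H.comap (e : G →* K), hN.comap _, ?_, hg⟩
  have hi : Function.Injective ((e : G →* K).subgroupComap H) := by
    intro a b hab
    apply Subtype.ext
    apply e.injective
    exact congrArg Subtype.val hab
  refine Subgroup.isNilpotent_of_ker_le_center ((e : G →* K).subgroupComap H) ?_
  rw [(MonoidHom.ker_eq_bot_iff _).2 hi]
  exact bot_le

end FIN

/-- the theorem for a ring in an arbitrary universe -/
theorem eu_uni (hEU : S_EU.{max u v}) (p n m : ℕ) (hp : p.Prime) (hn : n < p) (hm : m < p)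
    (G : Type u) [Group G] (hG : IsPGroup p G)
    (hlf : ∀ s : Set G, s.Finite → ((Subgroup.closure s : Subgroup G) : Set G).Finite)
    (hGE : Engel n G) (A : Type v) [Ring A] (φ : G →* Aˣ) (hker : Group.IsSolvable φ.ker)
    (U : Subgroup Aˣ) (hU : φ.range ≤ U) (hUE : Engel m U)
    (hcl : ∀ x ∈ Submodule.span ℤ (Set.range fun g : G => ((φ g : Aˣ) : A) - 1),
      IsNilpotent x → ∃ w ∈ U, ((w : Aˣ) : A) = 1 + x) : Fitting G := by
  let e : ULift.{v} G ≃* G := MulEquiv.ulift
  let f : ULift.{u} A ≃+* A := ULift.ringEquiv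
  let fu : (ULift.{u} A)ˣ ≃* Aˣ := Units.mapEquiv f.toMulEquiv
  let φ' : ULift.{v} G →* (ULift.{u} A)ˣ :=
    (fu.symm : Aˣ →* (ULift.{u} A)ˣ).comp (φ.comp (e : ULift.{v} G →* G))
  have hφ' : ∀ g, fu (φ' g) = φ (e g) := fun g => fu.apply_symm_apply _
  let U' : Subgroup (ULift.{u} A)ˣ := U.comap (fu : (ULift.{u} A)ˣ →* Aˣ)
  apply FIN.fitting_of_equiv e.symm
  refine hEU p n m hp hn hm (ULift.{v} G) (hG.of_equiv e.symm) ?_
    (FIN.engel_of_injective (e : ULift.{v} G →* G) e.injective hGE)
    (ULift.{u} A) φ' ?_ U' ?_ ?_ ?_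
  · intro s hs
    have h1 := hlf (e '' s) (hs.image _)
    have h2 : (Subgroup.closure s).map (e : ULift.{v} G →* G) = Subgroup.closure (e '' s) := by
      rw [MonoidHom.map_closure]
      rfl
    have h3 : ((Subgroup.closure s : Subgroup (ULift.{v} G)) : Set (ULift.{v} G)) ⊆
        e ⁻¹' ((Subgroup.closure (e '' s) : Subgroup G) : Set G) := by
      intro x hx
      show e x ∈ Subgroup.closure (e '' s)
      rw [← h2]
      exact ⟨x, hx, rfl⟩
    exact (h1.preimage e.injective.injOn).subset h3
  · have hk : φ'.ker = φ.ker.comap (e : ULift.{v} G →* G) := by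
      ext g
      rw [Subgroup.mem_comap, MonoidHom.mem_ker, MonoidHom.mem_ker]
      constructor
      · intro h
        have h1 := hφ' g
        rw [h, map_one] at h1
        exact h1.symm
      · intro h
        apply fu.injective
        rw [hφ', map_one]
        exact h
    rw [hk]
    have hi : Function.Injective ((e : ULift.{v} G →* G).subgroupComap φ.ker) := by
      intro a b hab
      apply Subtype.ext
      apply e.injective
      exact congrArg Subtype.val hab
    exact Group.isSolvable_of_isSolvable_injective hi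
  · rintro _ ⟨g, rfl⟩
    show fu (φ' g) ∈ U
    rw [hφ']
    exact hU ⟨e g, rfl⟩
  · have hi : Function.Injective ((fu : (ULift.{u} A)ˣ →* Aˣ).subgroupComap U) := by
      intro a b hab
      apply Subtype.ext
      apply fu.injective
      exact congrArg Subtype.val hab
    exact FIN.engel_of_injective _ hi hUE
  · intro x hx hxn
    have h1 : f x ∈ Submodule.span ℤ (Set.range fun g : G => ((φ g : Aˣ) : A) - 1) := by
      refine Submodule.span_induction
        (p := fun x _ => f x ∈ Submodule.span ℤ (Set.range fun g : G => ((φ g : Aˣ) : A) - 1))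
        ?_ ?_ (fun x y _ _ hx hy => ?_) (fun a x _ hx => ?_) hx
      · rintro _ ⟨g, rfl⟩
        have h2 : f (((φ' g : (ULift.{u} A)ˣ) : ULift.{u} A) - 1)
            = ((φ (e g) : Aˣ) : A) - 1 := by
          rw [map_sub, map_one, ← hφ' g]
          rfl
        rw [h2]
        exact Submodule.subset_span ⟨e g, rfl⟩
      · rw [map_zero]
        exact Submodule.zero_mem _
      · rw [map_add]
        exact Submodule.add_mem _ hx hy
      · rw [map_zsmul]
        exact Submodule.smul_mem _ a hx
    obtain ⟨w, hwU, hw⟩ := hcl (f x) h1 (hxn.map f)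
    refine ⟨fu.symm w, ?_, ?_⟩
    · show fu (fu.symm w) ∈ U
      rw [fu.apply_symm_apply]
      exact hwU
    · apply f.injective
      have h3 : f ((fu.symm w : (ULift.{u} A)ˣ) : ULift.{u} A) = w := by
        have : fu (fu.symm w) = w := fu.apply_symm_apply w
        exact congrArg Units.val this
      rw [h3, hw, map_add, map_one]

end Pool.EU
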