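import Pool.Agent.Work.MP_3617d5_eu.Def
import Pool.Agent.Work.MP_3617d5_ea.B_GRH
import Pool.Agent.Work.MP_3617d5_nr.B_GEN

/-!
# MP_3617d5_al, THEOREM EU, block UC: the centralizer of `1 + I` modulo `1 + T`
-/

set_option autoImplicit false

universe u

namespace Pool.EU

open Pool.NR Pool.EA

open scoped commutatorElement

namespace UC

variable {S : Type u} [Ring S]

/-- the conjugation by a unit -/
def cj (u : Sˣ) : RingAut S where
  toFun b := ((u⁻¹ : Sˣ) : S) * b * u
  invFun b := (u : S) * b * ((u⁻¹ : Sˣ) : S)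
  left_inv b := by
    simp only [← mul_assoc, Units.mul_inv, one_mul]
    rw [mul_assoc, Units.mul_inv, mul_one]
  right_inv b := by
    simp only [← mul_assoc, Units.inv_mul, one_mul]
    rw [mul_assoc, Units.inv_mul, mul_one]
  map_mul' a b := by
    have h : (u : S) * ((u⁻¹ : Sˣ) : S) = 1 := Units.mul_inv u
    calc ((u⁻¹ : Sˣ) : S) * (a * b) * u = ((u⁻¹ : Sˣ) : S) * a * 1 * b * u := by
          rw [mul_one]; simp only [mul_assoc]
      _ = ((u⁻¹ : Sˣ) : S) * a * u * (((u⁻¹ : Sˣ) : S) * b * u) := by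
          rw [← h]; simp only [mul_assoc]
  map_add' a b := by rw [mul_add, add_mul]

lemma cj_apply (u : Sˣ) (b : S) : cj u b = ((u⁻¹ : Sˣ) : S) * b * u := rfl

lemma cj_pow (u : Sˣ) (j : ℕ) (b : S) : (cj u ^ j) b = (((u ^ j)⁻¹ : Sˣ) : S) * b * (u ^ j : Sˣ) := by
  induction j generalizing b with
  | zero =>
    rw [pow_zero, pow_zero, inv_one, Units.val_one, one_mul, mul_one]
    rfl
  | succ j ih =>
    rw [pow_succ, RingAut.mul_apply, ih, cj_apply, pow_succ' u, mul_inv_rev, Units.val_mul,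
      Units.val_mul]
    simp only [mul_assoc]

lemma cj_map (u : Sˣ) (j : ℕ) (z : Sˣ) :
    Units.map ((cj u ^ j : RingAut S) : S →+* S) z = (u ^ j)⁻¹ * z * u ^ j := by
  apply Units.ext
  rw [Units.val_mul, Units.val_mul]
  exact cj_pow u j z

lemma engel_val {m : ℕ} {U : Subgroup Sˣ} (hE : Engel m U) {x w : Sˣ} (hx : x ∈ U) (hw : w ∈ U) :
    (fun z : Sˣ => z⁻¹ * x⁻¹ * z * x)^[m] w = 1 := by
  have h1 := congrArg U.subtype (hE ⟨x, hx⟩ ⟨w, hw⟩)
  rw [SK_iter, map_one] at h1
  exact h1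

end UC

theorem blk_UCx (hGCH : Stmt_GCH.{u}) : S_UC.{u} := by
  intro p m hp h1 hm S _ I hI hnil H hE hIH hmet g e hg
  have hgS : (g : Sˣ) ^ p ^ e = 1 := by
    rw [← Subgroup.coe_pow, hg, Subgroup.coe_one]
  have hgood : GoodB m I (UC.cj (g : Sˣ)) := by
    refine ⟨hI, fun b hb => (hnil b hb).isUnit_one_add, ?_, ?_, ?_⟩
    · intro x y hx hy
      exact UC.engel_val hE (hIH _ hx) (hIH _ hy)
    · intro b
      constructor
      · intro h
        have h2 := hI.right (((g : Sˣ)⁻¹ : Sˣ) : S) _ (hI.left ((g : Sˣ) : S) _ h)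
        rw [UC.cj_apply] at h2
        have h3 : ((g : Sˣ) : S) * ((((g : Sˣ)⁻¹ : Sˣ) : S) * b * ((g : Sˣ) : S))
            * (((g : Sˣ)⁻¹ : Sˣ) : S) = b := (UC.cj (g : Sˣ)).left_inv b
        rw [h3] at h2
        exact h2
      · intro h
        exact hI.right _ _ (hI.left _ _ h)
    · intro j x hx
      have h2 : (fun z : Sˣ => z⁻¹ * Units.map ((UC.cj (g : Sˣ) ^ j : RingAut S) : S →+* S) z)
          = fun z : Sˣ => z⁻¹ * ((g : Sˣ) ^ j)⁻¹ * z * (g : Sˣ) ^ j := by
        funext z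
        rw [UC.cj_map]
        group
      have h3 := UC.engel_val hE (H.pow_mem g.2 j) (hIH _ hx)
      rw [← h2] at h3
      exact h3
  obtain ⟨T, t1, t2, t3, -, t5⟩ := hGCH S m p e I (UC.cj (g : Sˣ)) h1 hp hm hgood hnil (by
    intro b _
    rw [UC.cj_pow, hgS, inv_one, Units.val_one, one_mul, mul_one])
  obtain ⟨H', h3, h4, h5⟩ := p_GEN S T t1 t3
  -- the subgroup `1 + I` of `H`
  let N : Subgroup H :=
    { carrier := {x | ((x : Sˣ) : S) - 1 ∈ I}
      one_mem' := by
        show (((1 : H) : Sˣ) : S) - 1 ∈ I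
        rw [Subgroup.coe_one, Units.val_one, sub_self]
        exact I.zero_mem
      mul_mem' := by
        intro a b ha hb
        show (((a * b : H) : Sˣ) : S) - 1 ∈ I
        have e1 : (((a * b : H) : Sˣ) : S) - 1
            = (((a : Sˣ) : S) - 1) * ((b : Sˣ) : S) + (((b : Sˣ) : S) - 1) := by
          rw [Subgroup.coe_mul, Units.val_mul]; noncomm_ring
        rw [e1]
        exact I.add_mem (hI.right _ _ ha) hb
      inv_mem' := by
        intro a ha
        show (((a⁻¹ : H) : Sˣ) : S) - 1 ∈ I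
        have e1 : (((a⁻¹ : H) : Sˣ) : S) - 1
            = -((((a : Sˣ)⁻¹ : Sˣ) : S) * (((a : Sˣ) : S) - 1)) := by
          rw [Subgroup.coe_inv, mul_sub, Units.inv_mul]; noncomm_ring
        rw [e1]
        exact I.neg_mem (hI.left _ _ ha) }
  have hN : ∀ x : H, x ∈ N ↔ ((x : Sˣ) : S) - 1 ∈ I := fun x => Iff.rfl
  have hNn : N.Normal := by
    constructor
    intro x hx k
    rw [hN] at hx ⊢
    have e1 : (((k * x * k⁻¹ : H) : Sˣ) : S) - 1
        = ((k : Sˣ) : S) * (((x : Sˣ) : S) - 1) * (((k : Sˣ)⁻¹ : Sˣ) : S) := by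
      rw [Subgroup.coe_mul, Subgroup.coe_mul, Subgroup.coe_inv, Units.val_mul, Units.val_mul,
        mul_sub, sub_mul, mul_one, Units.mul_inv]
    rw [e1]
    exact hI.right _ _ (hI.left _ _ hx)
  have := hNn
  refine p_GRH H N (H'.subgroupOf H) ?_ ?_ ?_ ?_ g ?_
  · constructor
    intro x hx k
    rw [Subgroup.mem_subgroupOf] at hx ⊢
    exact h3.conj_mem _ hx _
  · intro x hx
    rw [Subgroup.mem_subgroupOf, h5] at hx
    exact t2 hx
  · have h8 : Group.IsSolvable H' := by
      have := h4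
      infer_instance
    have := h8
    have hinj : Function.Injective ((H.subtype.comp (H'.subgroupOf H).subtype).codRestrict H'
        (fun x => x.2)) := by
      intro a b hab
      apply Subtype.ext
      apply Subtype.ext
      exact congrArg (fun x : H' => (x : Sˣ)) hab
    exact Group.isSolvable_of_isSolvable_injective hinj
  · -- the quotient is metabelian
    let q := QuotientGroup.mk' N
    have hq : ∀ a b c d : H ⧸ N, ⁅⁅a, b⁆, ⁅c, d⁆⁆ = 1 := by
      intro a b c d
      obtain ⟨a, rfl⟩ := QuotientGroup.mk'_surjective N a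
      obtain ⟨b, rfl⟩ := QuotientGroup.mk'_surjective N b
      obtain ⟨c, rfl⟩ := QuotientGroup.mk'_surjective N c
      obtain ⟨d, rfl⟩ := QuotientGroup.mk'_surjective N d
      rw [← map_commutatorElement, ← map_commutatorElement, ← map_commutatorElement]
      exact (QuotientGroup.eq_one_iff _).2 (hmet a b c d)
    have hcc : ∀ x ∈ commutator (H ⧸ N), ∀ y ∈ commutator (H ⧸ N), x * y = y * x := by
      have key : ∀ K : Subgroup (H ⧸ N), (∀ a b : H ⧸ N, ⁅a, b⁆ ∈ K) → commutator (H ⧸ N) ≤ K := by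
        intro K hK
        rw [commutator_def, Subgroup.commutator_le]
        intro a _ b _
        exact hK a b
      have h1 : ∀ a b : H ⧸ N, ∀ y ∈ commutator (H ⧸ N), ⁅a, b⁆ * y = y * ⁅a, b⁆ := by
        intro a b y hy
        have := key (Subgroup.centralizer {⁅a, b⁆}) (by
          intro c d
          rw [Subgroup.mem_centralizer_singleton_iff]
          exact (commutatorElement_eq_one_iff_mul_comm.1 (hq c d a b))) hy
        rw [Subgroup.mem_centralizer_singleton_iff] at this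
        exact this.symm
      intro x hx y hy
      have := key (Subgroup.centralizer {y}) (by
        intro c d
        rw [Subgroup.mem_centralizer_singleton_iff]
        exact h1 c d y hy) hx
      rw [Subgroup.mem_centralizer_singleton_iff] at this
      exact this
    rw [Group.isSolvable_def]
    refine ⟨2, ?_⟩
    rw [derivedSeries_succ, derivedSeries_one, Subgroup.commutator_eq_bot_iff_le_centralizer]
    intro x hx
    rw [Subgroup.mem_centralizer_iff]
    intro y hy
    exact hcc y hy x hx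
  · intro x hx
    rw [Subgroup.mem_subgroupOf, h5]
    have h6 := t5 _ hx
    rw [pow_one, dl_apply, UC.cj_apply] at h6
    have h7 : ((((g : Sˣ)⁻¹ : Sˣ) : S) * (((x : Sˣ) : S) - 1) * ((g : Sˣ) : S)
        - (((x : Sˣ) : S) - 1)) = (((g : Sˣ)⁻¹ : Sˣ) : S) * ((x : Sˣ) : S) * ((g : Sˣ) : S)
          - ((x : Sˣ) : S) := by
      rw [mul_sub, sub_mul, mul_one, Units.inv_mul]; abel
    rw [h7] at h6
    have h8 : (((x⁻¹ * g⁻¹ * x * g : H) : Sˣ) : S) - 1 = (((x : Sˣ)⁻¹ : Sˣ) : S) *
        ((((g : Sˣ)⁻¹ : Sˣ) : S) * ((x : Sˣ) : S) * ((g : Sˣ) : S) - ((x : Sˣ) : S)) := by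
      rw [Subgroup.coe_mul, Subgroup.coe_mul, Subgroup.coe_mul, Subgroup.coe_inv, Subgroup.coe_inv,
        Units.val_mul, Units.val_mul, Units.val_mul, mul_sub, Units.inv_mul]
      simp only [mul_assoc]
    rw [h8]
    exact t1.left _ _ h6

end Pool.EU
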