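import Pool.Agent.Work.MP_3617d5_eu.Def
import Pool.Agent.Work.MP_3fbbd3_adj.TOR

/-!
# MP_3617d5_al, THEOREM EU, block UT: the torsion ideal
-/

set_option autoImplicit false

universe u

namespace Pool.EU

open Pool.NR Pool.EA Pool.Agent.Work.MP_3fbbd3_adj

open scoped commutatorElement

namespace UT

section steps

variable {A : Type u} [Ring A]

lemma st_r (z x : Aˣ) (v : A) (hz : (z : A) = 1 + v) (hv : v * v = 0) (hx : v * x = v) :
    ((z⁻¹ * x⁻¹ * z * x : Aˣ) : A) = 1 + (((x⁻¹ : Aˣ) : A) - 1) * v := by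
  have hx' : v * ((x⁻¹ : Aˣ) : A) = v := by
    conv_lhs => rw [← hx]
    rw [mul_assoc, Units.mul_inv, mul_one]
  have e : (x * z) * (z⁻¹ * x⁻¹ * z * x) = z * x := by group
  have e2 : ((x * z : Aˣ) : A) * ((z⁻¹ * x⁻¹ * z * x : Aˣ) : A) = (z : A) * x := by
    rw [← Units.val_mul, e, Units.val_mul]
  have e3 : ((x * z : Aˣ) : A) * (1 + (((x⁻¹ : Aˣ) : A) - 1) * v) = (z : A) * x := by
    rw [Units.val_mul, hz]
    calc (x : A) * (1 + v) * (1 + (((x⁻¹ : Aˣ) : A) - 1) * v)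
        = x + ((x : A) * ((x⁻¹ : Aˣ) : A)) * v + x * (v * ((x⁻¹ : Aˣ) : A)) * v
            - x * (v * v) := by noncomm_ring
      _ = x + v + x * (v * v) - x * (v * v) := by rw [Units.mul_inv, one_mul, hx', mul_assoc]
      _ = (1 + v) * x := by rw [add_mul, one_mul, hx]; abel
  exact (Units.mul_right_inj (x * z)).1 (e2.trans e3.symm)

lemma st_l (z x : Aˣ) (v : A) (hz : (z : A) = 1 + v) (hv : v * v = 0) (hx : x * v = v) :
    ((z⁻¹ * x⁻¹ * z * x : Aˣ) : A) = 1 + v * ((x : A) - 1) := by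
  have e : (x * z) * (z⁻¹ * x⁻¹ * z * x) = z * x := by group
  have e2 : ((x * z : Aˣ) : A) * ((z⁻¹ * x⁻¹ * z * x : Aˣ) : A) = (z : A) * x := by
    rw [← Units.val_mul, e, Units.val_mul]
  have e3 : ((x * z : Aˣ) : A) * (1 + v * ((x : A) - 1)) = (z : A) * x := by
    rw [Units.val_mul, hz]
    calc (x : A) * (1 + v) * (1 + v * ((x : A) - 1))
        = x + x * v + (x * v) * (x - 1) + (x * (v * v)) * (x - 1) := by noncomm_ring
      _ = (1 + v) * x := by rw [hx, hv]; noncomm_ring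
  exact (Units.mul_right_inj (x * z)).1 (e2.trans e3.symm)

lemma it_r (z x : Aˣ) (v : A) (hz : (z : A) = 1 + v) (hv : v * v = 0) (hx : v * x = v) (j : ℕ) :
    (((fun z : Aˣ => z⁻¹ * x⁻¹ * z * x)^[j] z : Aˣ) : A)
      = 1 + (((x⁻¹ : Aˣ) : A) - 1) ^ j * v := by
  have hx' : v * ((x⁻¹ : Aˣ) : A) = v := by
    conv_lhs => rw [← hx]
    rw [mul_assoc, Units.mul_inv, mul_one]
  induction j with
  | zero => simpa using hz
  | succ j ih =>
    rw [Function.iterate_succ_apply']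
    have h1 : (((x⁻¹ : Aˣ) : A) - 1) ^ j * v * x = (((x⁻¹ : Aˣ) : A) - 1) ^ j * v := by
      rw [mul_assoc, hx]
    have h0 : ∀ i : ℕ, v * (((x⁻¹ : Aˣ) : A) - 1) ^ i * v = 0 := by
      intro i
      cases i with
      | zero => simpa using hv
      | succ i => rw [pow_succ', ← mul_assoc, mul_sub, mul_one, hx', sub_self, zero_mul, zero_mul]
    have h2 : (((x⁻¹ : Aˣ) : A) - 1) ^ j * v * ((((x⁻¹ : Aˣ) : A) - 1) ^ j * v) = 0 := by
      rw [mul_assoc, ← mul_assoc v, h0, mul_zero]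
    rw [st_r _ x _ ih h2 h1, pow_succ', mul_assoc]

lemma it_l (z x : Aˣ) (v : A) (hz : (z : A) = 1 + v) (hv : v * v = 0) (hx : x * v = v) (j : ℕ) :
    (((fun z : Aˣ => z⁻¹ * x⁻¹ * z * x)^[j] z : Aˣ) : A) = 1 + v * ((x : A) - 1) ^ j := by
  induction j with
  | zero => simpa using hz
  | succ j ih =>
    rw [Function.iterate_succ_apply']
    have h1 : x * (v * ((x : A) - 1) ^ j) = v * ((x : A) - 1) ^ j := by
      rw [← mul_assoc, hx]
    have h0 : ∀ i : ℕ, v * ((x : A) - 1) ^ i * v = 0 := by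
      intro i
      cases i with
      | zero => simpa using hv
      | succ i => rw [pow_succ, mul_assoc, mul_assoc, sub_mul, one_mul, hx, sub_self, mul_zero,
          mul_zero]
    have h2 : v * ((x : A) - 1) ^ j * (v * ((x : A) - 1) ^ j) = 0 := by
      rw [← mul_assoc, h0, zero_mul]
    rw [st_l _ x _ ih h2 h1, pow_succ, mul_assoc]

lemma engel_val {m : ℕ} {U : Subgroup Aˣ} (hE : Engel m U) {x w : Aˣ} (hx : x ∈ U) (hw : w ∈ U) :
    (fun z : Aˣ => z⁻¹ * x⁻¹ * z * x)^[m] w = 1 := by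
  have h1 := hE ⟨x, hx⟩ ⟨w, hw⟩
  have h2 : ∀ j : ℕ, (((fun z : U => z⁻¹ * (⟨x, hx⟩ : U)⁻¹ * z * (⟨x, hx⟩ : U))^[j] ⟨w, hw⟩ : U) : Aˣ)
      = (fun z : Aˣ => z⁻¹ * x⁻¹ * z * x)^[j] w := by
    intro j
    induction j with
    | zero => rfl
    | succ j ih =>
      rw [Function.iterate_succ_apply', Function.iterate_succ_apply', ← ih]
      rfl
  rw [← h2, h1]
  rfl

end steps

section tors

variable {p m : ℕ} {A : Type u} [Ring A] {G : Type u} [Group G] (φ : G →* Aˣ) (U : Subgroup Aˣ)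

lemma tors1 (hU : φ.range ≤ U) (hE : Engel m U)
    (hnil : ∀ x ∈ AS.M' (TOR.φ0 φ), IsNilpotent x → ∃ w ∈ U, ((w : Aˣ) : A) = 1 + x)
    (g h : G) (k : ℕ) (hn : g ^ p ^ k = 1) :
    (TOR.φ0 φ g - 1) * TOR.φ0 φ h * (∑ i ∈ Finset.range (p ^ k), TOR.φ0 φ g ^ i) ∈ AS.t p A := by
  have hgn : TOR.φ0 φ g ^ p ^ k = 1 := by rw [← map_pow, hn, map_one]
  set S := ∑ i ∈ Finset.range (p ^ k), TOR.φ0 φ g ^ i with hSdef
  have h0 : S * (TOR.φ0 φ g - 1) = 0 := by rw [hSdef, geom_sum_mul, hgn, sub_self]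
  obtain ⟨y, hy⟩ : ∃ y, y = (TOR.φ0 φ g - 1) * TOR.φ0 φ h * S := ⟨_, rfl⟩
  have hyM : y ∈ AS.M' (TOR.φ0 φ) := by
    rw [hy, hSdef, Finset.mul_sum]
    refine Submodule.sum_mem _ fun i _ => ?_
    have e : (TOR.φ0 φ g - 1) * TOR.φ0 φ h * TOR.φ0 φ g ^ i
        = TOR.φ0 φ (g * h * g ^ i) - TOR.φ0 φ (h * g ^ i) := by
      simp only [map_mul, map_pow]
      noncomm_ring
    rw [e]
    exact AS.sub_mem _ _
  have hy2 : y * y = 0 := by
    calc y * y = (TOR.φ0 φ g - 1) * TOR.φ0 φ h * S * ((TOR.φ0 φ g - 1) * TOR.φ0 φ h * S) := by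
          rw [hy]
      _ = (TOR.φ0 φ g - 1) * TOR.φ0 φ h * (S * (TOR.φ0 φ g - 1)) * TOR.φ0 φ h * S := by
          simp only [mul_assoc]
      _ = 0 := by rw [h0]; simp
  have hyg : y * ((φ g : Aˣ) : A) = y := by
    have h1 : S * TOR.φ0 φ g = S := by
      rw [mul_sub, mul_one, sub_eq_zero] at h0
      exact h0
    rw [← TOR.φ0_apply, hy, mul_assoc, h1]
  have hyg' : y * (((φ g)⁻¹ : Aˣ) : A) = y := by
    conv_lhs => rw [← hyg]
    rw [mul_assoc, Units.mul_inv, mul_one]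
  obtain ⟨w, hwU, hw⟩ := hnil y hyM ⟨2, by rw [pow_two, hy2]⟩
  have h1 := it_r w (φ g)⁻¹ y hw hy2 hyg' m
  rw [engel_val hE (U.inv_mem (hU ⟨g, rfl⟩)) hwU, Units.val_one, inv_inv] at h1
  have h3 : (TOR.φ0 φ g - 1) ^ m * y = 0 := (left_eq_add.1 h1)
  set q := Ideal.Quotient.mk (AS.t p A) with hq
  rw [← Ideal.Quotient.eq_zero_iff_mem]
  have h4 : q ((TOR.φ0 φ g - 1) ^ m * y) = 0 := by rw [h3, map_zero]
  have h5 : (q (TOR.φ0 φ g) - 1) ^ (m + 1) * (q (TOR.φ0 φ h) * q S) = 0 := by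
    rw [pow_succ, mul_assoc, ← mul_assoc (q (TOR.φ0 φ g) - 1)]
    rw [hy, map_mul, map_pow, map_mul, map_mul, map_sub, map_one] at h4
    exact h4
  have h6 := TOR.desc_l (n := p ^ k) (RP.notors (R := A ⧸ AS.t p A) (p := p) AS.notors k)
    (q (TOR.φ0 φ g)) _ (by rw [← map_pow, hgn, map_one]) m h5
  rw [map_mul, map_mul, map_sub, map_one, mul_assoc]
  exact h6

lemma tors2 (hU : φ.range ≤ U) (hE : Engel m U)
    (hnil : ∀ x ∈ AS.M' (TOR.φ0 φ), IsNilpotent x → ∃ w ∈ U, ((w : Aˣ) : A) = 1 + x)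
    (g h : G) (k : ℕ) (hn : g ^ p ^ k = 1) :
    (∑ i ∈ Finset.range (p ^ k), TOR.φ0 φ g ^ i) * TOR.φ0 φ h * (TOR.φ0 φ g - 1) ∈ AS.t p A := by
  have hgn : TOR.φ0 φ g ^ p ^ k = 1 := by rw [← map_pow, hn, map_one]
  set S := ∑ i ∈ Finset.range (p ^ k), TOR.φ0 φ g ^ i with hSdef
  have h0 : (TOR.φ0 φ g - 1) * S = 0 := by rw [hSdef, mul_geom_sum, hgn, sub_self]
  obtain ⟨y, hy⟩ : ∃ y, y = S * TOR.φ0 φ h * (TOR.φ0 φ g - 1) := ⟨_, rfl⟩
  have hyM : y ∈ AS.M' (TOR.φ0 φ) := by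
    rw [hy, hSdef, Finset.sum_mul, Finset.sum_mul]
    refine Submodule.sum_mem _ fun i _ => ?_
    have e : TOR.φ0 φ g ^ i * TOR.φ0 φ h * (TOR.φ0 φ g - 1)
        = TOR.φ0 φ (g ^ i * h * g) - TOR.φ0 φ (g ^ i * h) := by
      simp only [map_mul, map_pow]
      noncomm_ring
    rw [e]
    exact AS.sub_mem _ _
  have hy2 : y * y = 0 := by
    calc y * y = S * TOR.φ0 φ h * (TOR.φ0 φ g - 1) * (S * TOR.φ0 φ h * (TOR.φ0 φ g - 1)) := by
          rw [hy]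
      _ = S * TOR.φ0 φ h * ((TOR.φ0 φ g - 1) * S) * TOR.φ0 φ h * (TOR.φ0 φ g - 1) := by
          simp only [mul_assoc]
      _ = 0 := by rw [h0]; simp
  have hgS : TOR.φ0 φ g * S = S := by
    rw [sub_mul, one_mul, sub_eq_zero] at h0
    exact h0
  have hyg : ((φ g : Aˣ) : A) * y = y := by
    rw [← TOR.φ0_apply, hy, ← mul_assoc, ← mul_assoc, hgS]
  obtain ⟨w, hwU, hw⟩ := hnil y hyM ⟨2, by rw [pow_two, hy2]⟩
  have h1 := it_l w (φ g) y hw hy2 hyg m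
  rw [engel_val hE (hU ⟨g, rfl⟩) hwU, Units.val_one] at h1
  have h3 : y * (TOR.φ0 φ g - 1) ^ m = 0 := (left_eq_add.1 h1)
  set q := Ideal.Quotient.mk (AS.t p A) with hq
  rw [← Ideal.Quotient.eq_zero_iff_mem]
  have h4 : q (y * (TOR.φ0 φ g - 1) ^ m) = 0 := by rw [h3, map_zero]
  have h5 : (q S * q (TOR.φ0 φ h)) * (q (TOR.φ0 φ g) - 1) ^ (m + 1) = 0 := by
    rw [pow_succ', ← mul_assoc]
    rw [hy, map_mul, map_pow, map_mul, map_mul, map_sub, map_one] at h4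
    exact h4
  have h6 := TOR.desc_r (n := p ^ k) (RP.notors (R := A ⧸ AS.t p A) (p := p) AS.notors k)
    (q (TOR.φ0 φ g)) _ (by rw [← map_pow, hgn, map_one]) m h5
  rw [map_mul, map_mul, map_sub, map_one]
  exact h6

lemma meta_tors (hRP : S_RP.{u}) (hp : p.Prime) (hG : IsPGroup p G)
    (hlf : ∀ s : Set G, s.Finite → ((Subgroup.closure s : Subgroup G) : Set G).Finite)
    (hU : φ.range ≤ U) (hE : Engel m U)
    (hnil : ∀ x ∈ AS.M' (TOR.φ0 φ), IsNilpotent x → ∃ w ∈ U, ((w : Aˣ) : A) = 1 + x)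
    (a b c d : G) : TOR.φ0 φ ⁅⁅a, b⁆, ⁅c, d⁆⁆ - 1 ∈ AS.t p A := by
  let ψ : G →* A ⧸ AS.t p A :=
    (Ideal.Quotient.mk (AS.t p A) : A →* A ⧸ AS.t p A).comp (TOR.φ0 φ)
  have hfin : (({a, b, c, d} : Set G)).Finite := Set.toFinite _
  set P : Subgroup G := Subgroup.closure {a, b, c, d} with hP
  have hPf : Finite P := hlf _ hfin
  have hPp : IsPGroup p P := hG.to_subgroup P
  have := Fact.mk hp
  obtain ⟨k, hk⟩ := IsPGroup.iff_card.1 hPp
  have hsub : ({a, b, c, d} : Set G) ⊆ P := Subgroup.subset_closure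
  have hcard : ∀ g : P, (g : G) ^ p ^ k = 1 := by
    intro g
    have : g ^ Nat.card P = 1 := pow_card_eq_one'
    rw [hk] at this
    exact_mod_cast congrArg Subtype.val this
  have := hRP p hp P hPp (A ⧸ AS.t p A) AS.notors (ψ.comp P.subtype) (by
    intro g h
    have h3 := tors1 (p := p) φ U hU hE hnil (g : G) (h : G) k (hcard g)
    rw [← Ideal.Quotient.eq_zero_iff_mem] at h3
    rw [map_mul, map_mul, map_sub, map_sum, map_one] at h3
    simp only [map_pow] at h3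
    rw [hk]
    exact h3) (by
    intro g h
    have h3 := tors2 (p := p) φ U hU hE hnil (g : G) (h : G) k (hcard g)
    rw [← Ideal.Quotient.eq_zero_iff_mem] at h3
    rw [map_mul, map_mul, map_sub, map_sum, map_one] at h3
    simp only [map_pow] at h3
    rw [hk]
    exact h3)
    ⟨a, hsub (by simp)⟩ ⟨b, hsub (by simp)⟩ ⟨c, hsub (by simp)⟩ ⟨d, hsub (by simp)⟩
  have h1 : ψ ⁅⁅a, b⁆, ⁅c, d⁆⁆ = 1 := this
  rw [← Ideal.Quotient.eq_zero_iff_mem, map_sub, map_one, sub_eq_zero]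
  exact h1

end tors

section nil

variable {A : Type u} [Ring A]

/-- the multiples of `N` -/
def pj (N : ℕ) (A : Type u) [Ring A] : Ideal A where
  carrier := {x | ∃ a : A, N • a = x}
  zero_mem' := ⟨0, smul_zero _⟩
  add_mem' := by
    rintro x y ⟨a, rfl⟩ ⟨b, rfl⟩
    exact ⟨a + b, smul_add _ _ _⟩
  smul_mem' := by
    rintro c x ⟨a, rfl⟩
    exact ⟨c * a, by rw [smul_eq_mul, mul_smul_comm]⟩

instance (N : ℕ) : (pj N A).IsTwoSided := ⟨by
  rintro x b ⟨a, rfl⟩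
  exact ⟨a * b, by rw [smul_mul_assoc]⟩⟩

variable {p : ℕ} {G : Type u} [Group G] (φ : G →* A)

lemma nilp (hNP : S_NP.{u}) (hp : p.Prime) (hG : IsPGroup p G)
    (hlf : ∀ s : Set G, s.Finite → ((Subgroup.closure s : Subgroup G) : Set G).Finite)
    (x : A) (hx : x ∈ AS.M' φ) (ht : x ∈ AS.t p A) : IsNilpotent x := by
  classical
  obtain ⟨j, hj⟩ := ht
  obtain ⟨T, hT1, hT2⟩ := Submodule.subset_span_finite_of_subset_span (t := {x})
    (s := Set.range fun g => φ g - 1) (R := ℤ) (by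
      rw [Finset.coe_singleton, Set.singleton_subset_iff]; exact hx)
  obtain ⟨F, hF⟩ : ∃ F : Finset G, F.image (fun g => φ g - 1) = T := by
    have := Finset.subset_set_image_iff (s := Set.univ) (t := T) (f := fun g : G => φ g - 1)
    obtain ⟨F, _, hF⟩ := this.1 (by rwa [Set.image_univ])
    exact ⟨F, hF⟩
  set P : Subgroup G := Subgroup.closure (F : Set G) with hP
  have hPf : Finite P := hlf _ (Finset.finite_toSet F)
  have hPp : IsPGroup p P := hG.to_subgroup P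
  let q : A →+* A ⧸ pj (p ^ j) A := Ideal.Quotient.mk (pj (p ^ j) A)
  let ψ : P →* A ⧸ pj (p ^ j) A := ((q : A →* A ⧸ pj (p ^ j) A).comp φ).comp P.subtype
  obtain ⟨n, hn⟩ := hNP p hp P hPp (A ⧸ pj (p ^ j) A) ψ (by
    intro g
    refine ⟨j, ?_⟩
    have e : p ^ j • (ψ g - 1) = q (p ^ j • (φ g - 1)) := by
      rw [map_nsmul, map_sub, map_one]
      rfl
    rw [e]
    exact Ideal.Quotient.eq_zero_iff_mem.2 ⟨_, rfl⟩)
  have hqx : q x ∈ Submodule.span ℤ (Set.range fun g => ψ g - 1) := by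
    have h1 : x ∈ Submodule.span ℤ (T : Set A) := hT2 (by simp)
    have h2 : q x ∈ Submodule.map q.toIntAlgHom.toLinearMap (Submodule.span ℤ (T : Set A)) :=
      ⟨x, h1, rfl⟩
    rw [Submodule.map_span] at h2
    refine Submodule.span_mono ?_ h2
    rintro _ ⟨y, hy, rfl⟩
    rw [← hF] at hy
    obtain ⟨g, hg, rfl⟩ := Finset.mem_image.1 (Finset.mem_coe.1 hy)
    refine ⟨⟨g, Subgroup.subset_closure hg⟩, ?_⟩
    show q (φ g) - 1 = q (φ g - 1)
    rw [map_sub, map_one]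
  have h3 := Submodule.pow_mem_pow _ hqx n
  rw [hn, Submodule.mem_bot, ← map_pow] at h3
  obtain ⟨a, ha⟩ := Ideal.Quotient.eq_zero_iff_mem.1 h3
  refine ⟨n + 1, ?_⟩
  rw [pow_succ, ← ha, smul_mul_assoc, ← mul_smul_comm, hj, mul_zero]

end nil

end UT

theorem blk_UT (hRP : S_RP.{u}) (hNP : S_NP.{u}) : S_UT.{u} := by
  intro p m hp G _ hG hlf A _ φ U hU hE hnil
  have hnil' : ∀ x ∈ AS.M' (TOR.φ0 φ), IsNilpotent x → ∃ w ∈ U, ((w : Aˣ) : A) = 1 + x := hnil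
  set B := AS.B (TOR.φ0 φ) with hB
  have hmt := UT.meta_tors (m := m) φ U hRP hp hG hlf hU hE hnil'
  let I : AddSubgroup B :=
    { carrier := {b | (b : A) ∈ AS.M' (TOR.φ0 φ) ∧ (b : A) ∈ AS.t p A}
      zero_mem' := ⟨(AS.M' _).zero_mem, (AS.t p A).zero_mem⟩
      add_mem' := fun ha hb => ⟨(AS.M' _).add_mem ha.1 hb.1, (AS.t p A).add_mem ha.2 hb.2⟩
      neg_mem' := fun ha => ⟨(AS.M' _).neg_mem ha.1, (AS.t p A).neg_mem ha.2⟩ }
  have hI : ∀ b : B, b ∈ I ↔ (b : A) ∈ AS.M' (TOR.φ0 φ) ∧ (b : A) ∈ AS.t p A := fun b => Iff.rfl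
  have hIl : ∀ a b : B, b ∈ I → a * b ∈ I := by
    intro a b hb
    rw [hI] at hb ⊢
    obtain ⟨k, hk⟩ := a.2
    refine ⟨?_, ?_⟩
    · have e : ((a * b : B) : A) = k • (b : A) + ((a : A) - k) * b := by
        rw [Subring.coe_mul, zsmul_eq_mul]; noncomm_ring
      rw [e]
      exact (AS.M' _).add_mem ((AS.M' _).smul_mem _ hb.1) (AS.mul_le (Submodule.mul_mem_mul hk hb.1))
    · exact (AS.t p A).mul_mem_left _ hb.2
  have hIr : ∀ a b : B, b ∈ I → b * a ∈ I := by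
    intro a b hb
    rw [hI] at hb ⊢
    obtain ⟨k, hk⟩ := a.2
    refine ⟨?_, ?_⟩
    · have e : ((b * a : B) : A) = k • (b : A) + b * ((a : A) - k) := by
        rw [Subring.coe_mul, zsmul_eq_mul, mul_sub, ← Int.cast_comm k (b : A)]; abel
      rw [e]
      exact (AS.M' _).add_mem ((AS.M' _).smul_mem _ hb.1) (AS.mul_le (Submodule.mul_mem_mul hb.1 hk))
    · exact Ideal.mul_mem_right _ _ hb.2
  let ηf : G → Bˣ := fun g =>
    ⟨⟨((φ g : Aˣ) : A), AS.mem_B g⟩, ⟨((φ g⁻¹ : Aˣ) : A), AS.mem_B g⁻¹⟩, by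
      apply Subtype.ext
      show ((φ g : Aˣ) : A) * ((φ g⁻¹ : Aˣ) : A) = 1
      rw [← Units.val_mul, ← map_mul, mul_inv_cancel, map_one, Units.val_one], by
      apply Subtype.ext
      show ((φ g⁻¹ : Aˣ) : A) * ((φ g : Aˣ) : A) = 1
      rw [← Units.val_mul, ← map_mul, inv_mul_cancel, map_one, Units.val_one]⟩
  let η : G →* Bˣ :=
    { toFun := ηf
      map_one' := by
        apply Units.ext
        apply Subtype.ext
        show ((φ 1 : Aˣ) : A) = 1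
        rw [map_one, Units.val_one]
      map_mul' := by
        intro a b
        apply Units.ext
        apply Subtype.ext
        show ((φ (a * b) : Aˣ) : A) = ((φ a : Aˣ) : A) * ((φ b : Aˣ) : A)
        rw [map_mul, Units.val_mul] }
  have hη : ∀ g, (((η g : Bˣ) : B) : A) = ((φ g : Aˣ) : A) := fun g => rfl
  let ι : Bˣ →* Aˣ := Units.map B.subtype.toMonoidHom
  have hι : ∀ x : Bˣ, ((ι x : Aˣ) : A) = ((x : B) : A) := fun x => rfl
  have hιinj : Function.Injective ι := by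
    intro x y hxy
    apply Units.ext
    apply Subtype.ext
    rw [← hι, ← hι, hxy]
  have hιη : ∀ g, ι (η g) = φ g := fun g => Units.ext rfl
  -- the relation
  have rmul : ∀ (x y : Bˣ) (g h : G), (x : B) - η g ∈ I → (y : B) - η h ∈ I →
      ((x * y : Bˣ) : B) - (η (g * h) : Bˣ) ∈ I := by
    intro x y g h hx hy
    have e : ((x * y : Bˣ) : B) - (η (g * h) : Bˣ)
        = ((x : B) - η g) * y + (η g : B) * ((y : B) - η h) := by
      rw [map_mul, Units.val_mul, Units.val_mul]; noncomm_ring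
    rw [e]
    exact I.add_mem (hIr _ _ hx) (hIl _ _ hy)
  have rinv : ∀ (x : Bˣ) (g : G), (x : B) - η g ∈ I → ((x⁻¹ : Bˣ) : B) - (η g⁻¹ : Bˣ) ∈ I := by
    intro x g hx
    have e : ((x⁻¹ : Bˣ) : B) - (η g⁻¹ : Bˣ)
        = -(((x⁻¹ : Bˣ) : B) * ((x : B) - η g) * ((η g)⁻¹ : Bˣ)) := by
      rw [map_inv, mul_sub, sub_mul, Units.inv_mul, one_mul, mul_assoc, Units.mul_inv, mul_one]
      abel
    rw [e]
    exact I.neg_mem (hIr _ _ (hIl _ _ hx))
  have rcomm : ∀ (x y : Bˣ) (g h : G), (x : B) - η g ∈ I → (y : B) - η h ∈ I →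
      ((⁅x, y⁆ : Bˣ) : B) - (η ⁅g, h⁆ : Bˣ) ∈ I := by
    intro x y g h hx hy
    rw [commutatorElement_def, commutatorElement_def]
    exact rmul _ _ _ _ (rmul _ _ _ _ (rmul _ _ _ _ hx hy) (rinv _ _ hx)) (rinv _ _ hy)
  let H : Subgroup Bˣ :=
    { carrier := {x | ∃ g, (x : B) - η g ∈ I}
      one_mem' := ⟨1, by rw [map_one, sub_self]; exact I.zero_mem⟩
      mul_mem' := by
        rintro x y ⟨g, hg⟩ ⟨h, hh⟩
        exact ⟨g * h, rmul _ _ _ _ hg hh⟩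
      inv_mem' := by
        rintro x ⟨g, hg⟩
        exact ⟨g⁻¹, rinv _ _ hg⟩ }
  have hH : ∀ x : Bˣ, x ∈ H ↔ ∃ g, (x : B) - η g ∈ I := fun x => Iff.rfl
  have hInil : ∀ b ∈ I, IsNilpotent (b : A) := fun b hb =>
    UT.nilp (TOR.φ0 φ) hNP hp hG hlf (b : A) hb.1 hb.2
  have hHU : ∀ x ∈ H, ι x ∈ U := by
    rintro x ⟨g, hg⟩
    have h1 : ((x : B) - η g) * ((η g)⁻¹ : Bˣ) ∈ I := hIr _ _ hg
    obtain ⟨w, hwU, hw⟩ := hnil' _ h1.1 (hInil _ h1)
    have h2 : ι x = w * φ g := by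
      apply Units.ext
      rw [hι, Units.val_mul, hw, ← hη, add_mul, one_mul, ← Subring.coe_mul, mul_assoc,
        Units.inv_mul, mul_one, ← Subring.coe_add]
      congr 1
      abel
    rw [h2]
    exact U.mul_mem hwU (hU ⟨g, rfl⟩)
  refine ⟨B, inferInstance, I, η, H, ?_, ?_, ?_, ?_, ?_, ?_, ?_⟩
  · ext g
    rw [MonoidHom.mem_ker, MonoidHom.mem_ker, ← hιη g]
    constructor
    · intro h
      rw [h, map_one]
    · intro h
      exact hιinj (by rw [h, map_one])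
  · exact ⟨fun a b hb => hIl a b hb, fun a b hb => hIr a b hb⟩
  · intro b hb
    obtain ⟨n, hn⟩ := hInil b hb
    refine ⟨n, ?_⟩
    apply Subtype.ext
    rw [Subring.coe_pow, hn]
    rfl
  · intro x y
    have h1 := UT.engel_val hE (hHU _ x.2) (hHU _ y.2)
    have h2 : ∀ j : ℕ, ι (((fun z : H => z⁻¹ * x⁻¹ * z * x)^[j] y : H) : Bˣ)
        = (fun z : Aˣ => z⁻¹ * (ι x)⁻¹ * z * (ι x))^[j] (ι y) := by
      intro j
      induction j with
      | zero => rfl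
      | succ j ih =>
        rw [Function.iterate_succ_apply', Function.iterate_succ_apply', ← ih]
        rfl
    apply Subtype.ext
    apply hιinj
    rw [h2, h1]
    rfl
  · rintro _ ⟨g, rfl⟩
    exact ⟨g, by rw [sub_self]; exact I.zero_mem⟩
  · intro x hx
    exact ⟨1, by rw [map_one]; exact hx⟩
  · rintro ⟨a, g, hg⟩ ⟨b, h, hh⟩ ⟨c, k, hk⟩ ⟨d, l, hl⟩
    have h1 := rcomm _ _ _ _ (rcomm _ _ _ _ hg hh) (rcomm _ _ _ _ hk hl)
    have h2 : ((η ⁅⁅g, h⁆, ⁅k, l⁆⁆ : Bˣ) : B) - 1 ∈ I := by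
      rw [hI]
      refine ⟨?_, hmt g h k l⟩
      exact Submodule.subset_span ⟨⁅⁅g, h⁆, ⁅k, l⁆⁆, rfl⟩
    have h3 := I.add_mem h1 h2
    rw [sub_add_sub_cancel] at h3
    exact h3

end Pool.EU
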