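import Pool.Agent.Work.MP_3617d5_ea.Interface
import Pool.Agent.Work.MP_3fbbd3_adj.Def2

/-!
# MP_3617d5_al, THEOREM EU: Engel groups of units of arbitrary rings (interface)
-/

set_option autoImplicit false

universe u

namespace Pool.EU

open Pool.NR Pool.EA

open scoped commutatorElement

/-- block UC: an element of `H` of `p`-power order lies in a soluble normal subgroup of `H` if `H / (1 + I)` is soluble
(uses GCH of `MP_3617d5_ea`) -/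
def S_UC : Prop := ∀ (p m : ℕ) (_ : p.Prime) (_ : 1 ≤ m) (_ : m < p) (S : Type u) [Ring S]
    (I : AddSubgroup S) (_ : IdI I) (_ : ∀ b ∈ I, IsNilpotent b) (H : Subgroup Sˣ)
    (_ : Engel m H) (_ : ∀ x : Sˣ, (x : S) - 1 ∈ I → x ∈ H)
    (_ : ∀ a b c d : H, (((⁅⁅a, b⁆, ⁅c, d⁆⁆ : H) : Sˣ) : S) - 1 ∈ I)
    (g : H) (e : ℕ) (_ : g ^ p ^ e = 1), ∃ C : Subgroup H, C.Normal ∧ Group.IsSolvable C ∧ g ∈ C

/-- block UT: the torsion ideal (uses RP of `MP_3fbbd3_adj`); `H` is the group `η(G) (1 + I)` -/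
def S_UT : Prop := ∀ (p m : ℕ) (_ : p.Prime) (G : Type u) [Group G] (_ : IsPGroup p G)
    (_ : ∀ s : Set G, s.Finite → ((Subgroup.closure s : Subgroup G) : Set G).Finite)
    (A : Type u) [Ring A] (φ : G →* Aˣ) (U : Subgroup Aˣ) (_ : φ.range ≤ U) (_ : Engel m U)
    (_ : ∀ x ∈ Submodule.span ℤ (Set.range fun g => ((φ g : Aˣ) : A) - 1), IsNilpotent x →
      ∃ w ∈ U, ((w : Aˣ) : A) = 1 + x),
    ∃ (S : Type u) (_ : Ring S) (I : AddSubgroup S) (η : G →* Sˣ) (H : Subgroup Sˣ),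
      η.ker = φ.ker ∧ IdI I ∧ (∀ b ∈ I, IsNilpotent b) ∧ Engel m H ∧ η.range ≤ H ∧
      (∀ x : Sˣ, (x : S) - 1 ∈ I → x ∈ H) ∧
      ∀ a b c d : H, (((⁅⁅a, b⁆, ⁅c, d⁆⁆ : H) : Sˣ) : S) - 1 ∈ I

/-- the theorem -/
def S_EU : Prop := ∀ (p n m : ℕ) (_ : p.Prime) (_ : n < p) (_ : m < p) (G : Type u) [Group G]
    (_ : IsPGroup p G)
    (_ : ∀ s : Set G, s.Finite → ((Subgroup.closure s : Subgroup G) : Set G).Finite)
    (_ : Engel n G) (A : Type u) [Ring A] (φ : G →* Aˣ) (_ : Group.IsSolvable φ.ker)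
    (U : Subgroup Aˣ) (_ : φ.range ≤ U) (_ : Engel m U)
    (_ : ∀ x ∈ Submodule.span ℤ (Set.range fun g => ((φ g : Aˣ) : A) - 1), IsNilpotent x →
      ∃ w ∈ U, ((w : Aˣ) : A) = 1 + x),
    Fitting G

end Pool.EU
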