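import Pool.Agent.Work.MP_3617d5_eu.Def
import Pool.Agent.Work.MP_3617d5_nr.AllB
import Pool.Agent.Work.MP_3617d5_nr.B_GEN
import Pool.Agent.Work.MP_3617d5_ea.B_GRH

/-!
# Block UC: elements of `p`-power order of Engel groups of units modulo a nil ideal
-/

set_option autoImplicit false

universe u

namespace Pool.EU

open Pool.NR Pool.EA

open scoped commutatorElement

namespace UC

variable {S : Type u} [Ring S]

/-- conjugation by a unit, as an automorphism of the ring -/
def inn (u : Sˣ) : RingAut S where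
  toFun b := ((u⁻¹ : Sˣ) : S) * b * (u : S)
  invFun b := (u : S) * b * ((u⁻¹ : Sˣ) : S)
  left_inv b := by
    show (u : S) * (((u⁻¹ : Sˣ) : S) * b * (u : S)) * ((u⁻¹ : Sˣ) : S) = b
    simp only [mul_assoc, Units.mul_inv, mul_one]
    rw [← mul_assoc, Units.mul_inv, one_mul]
  right_inv b := by
    show ((u⁻¹ : Sˣ) : S) * ((u : S) * b * ((u⁻¹ : Sˣ) : S)) * (u : S) = b
    simp only [mul_assoc, Units.inv_mul, mul_one]
    rw [← mul_assoc, Units.inv_mul, one_mul]
  map_mul' a b := by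
    calc ((u⁻¹ : Sˣ) : S) * (a * b) * (u : S)
        = ((u⁻¹ : Sˣ) : S) * a * 1 * b * (u : S) := by rw [mul_one, ← mul_assoc]
      _ = ((u⁻¹ : Sˣ) : S) * a * (u : S) * (((u⁻¹ : Sˣ) : S) * b * (u : S)) := by
          rw [← Units.mul_inv u]; simp only [mul_assoc]
  map_add' a b := by
    show ((u⁻¹ : Sˣ) : S) * (a + b) * (u : S) = _
    rw [mul_add, add_mul]

lemma inn_apply (u : Sˣ) (b : S) : inn u b = ((u⁻¹ : Sˣ) : S) * b * (u : S) := rfl

lemma inn_pow (u : Sˣ) (j : ℕ) (b : S) :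
    (inn u ^ j) b = (((u ^ j)⁻¹ : Sˣ) : S) * b * ((u ^ j : Sˣ) : S) := by
  induction j generalizing b with
  | zero => simp
  | succ j ih =>
    rw [pow_succ, RingAut.mul_apply, ih, inn_apply, pow_succ' u, mul_inv_rev, Units.val_mul,
      Units.val_mul]
    simp only [mul_assoc]

/-- metabelian groups are soluble -/
lemma metab {Q : Type u} [Group Q] (h : ∀ a b c d : Q, ⁅⁅a, b⁆, ⁅c, d⁆⁆ = 1) :
    Group.IsSolvable Q := by
  have h1 : ∀ a b : Q, ∀ y ∈ commutator Q, y * ⁅a, b⁆ = ⁅a, b⁆ * y := by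
    intro a b y hy
    have h0 : commutator Q ≤ Subgroup.centralizer {⁅a, b⁆} := by
      rw [commutator_def, Subgroup.commutator_le]
      intro c _ d _
      rw [Subgroup.mem_centralizer_singleton_iff]
      exact commutatorElement_eq_one_iff_mul_comm.1 (h c d a b)
    have := h0 hy
    rw [Subgroup.mem_centralizer_singleton_iff] at this
    exact this
  have h2 : ∀ x ∈ commutator Q, ∀ y ∈ commutator Q, x * y = y * x := by
    intro x hx y hy
    have h0 : commutator Q ≤ Subgroup.centralizer {y} := by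
      rw [commutator_def, Subgroup.commutator_le]
      intro c _ d _
      rw [Subgroup.mem_centralizer_singleton_iff]
      exact (h1 c d y hy).symm
    have := h0 hx
    rw [Subgroup.mem_centralizer_singleton_iff] at this
    exact this
  refine ⟨2, ?_⟩
  rw [derivedSeries_succ, derivedSeries_one, eq_bot_iff, Subgroup.commutator_le]
  intro x hx y hy
  rw [Subgroup.mem_bot, commutatorElement_eq_one_iff_mul_comm]
  exact h2 x hx y hy

variable {m : ℕ} {I : AddSubgroup S} {H : Subgroup Sˣ}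

lemma good (hid : IdI I) (hnil : ∀ b ∈ I, IsNilpotent b) (hE : Engel m H)
    (hH : ∀ x : Sˣ, (x : S) - 1 ∈ I → x ∈ H) (u : H) : GoodB m I (inn (u : Sˣ)) := by
  have hit : ∀ x y : H, (fun z : Sˣ => z⁻¹ * (x : Sˣ)⁻¹ * z * (x : Sˣ))^[m] (y : Sˣ) = 1 := by
    intro x y
    have := SK_iter H.subtype x m y
    rw [hE x y, map_one] at this
    exact this.symm
  constructor
  · exact hid
  · intro b hb
    exact (hnil b hb).isUnit_one_add
  · intro x y hx hy
    exact hit ⟨x, hH x hx⟩ ⟨y, hH y hy⟩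
  · intro b
    rw [inn_apply]
    constructor
    · intro h
      have h1 := hid.right ((((u : Sˣ)⁻¹ : Sˣ)) : S) _ (hid.left ((u : Sˣ) : S) _ h)
      have e : ((u : Sˣ) : S) * ((((u : Sˣ)⁻¹ : Sˣ) : S) * b * ((u : Sˣ) : S))
          * (((u : Sˣ)⁻¹ : Sˣ) : S) = b := by
        simp only [mul_assoc, Units.mul_inv, mul_one]
        rw [← mul_assoc, Units.mul_inv, one_mul]
      rwa [e] at h1
    · intro h
      exact hid.right _ _ (hid.left _ _ h)
  · intro j x hx
    have h1 : (fun z : Sˣ => z⁻¹ * Units.map (((inn (u : Sˣ) ^ j : RingAut S) : S →+* S) : S →* S) z)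
        = fun z : Sˣ => z⁻¹ * (((u ^ j : H) : Sˣ))⁻¹ * z * ((u ^ j : H) : Sˣ) := by
      funext z
      have h2 : Units.map (((inn (u : Sˣ) ^ j : RingAut S) : S →+* S) : S →* S) z
          = (((u ^ j : H) : Sˣ))⁻¹ * z * ((u ^ j : H) : Sˣ) := by
        apply Units.ext
        have h3 := inn_pow (u : Sˣ) j (z : S)
        rw [Units.val_mul, Units.val_mul, Subgroup.coe_pow, ← h3]
        rfl
      rw [h2]
      group
    rw [h1]
    exact hit (u ^ j) ⟨x, hH x hx⟩

end UC

theorem blk_UC (hGCH : Stmt_GCH.{u}) : S_UC.{u} := by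
  intro p m hp h1 hm S _ I hid hnil H hE hH hmet g e hg
  have hg' : (g : Sˣ) ^ p ^ e = 1 := by
    rw [← Subgroup.coe_pow, hg, Subgroup.coe_one]
  obtain ⟨T, t1, t2, t3, -, t5⟩ := hGCH S m p e I (UC.inn (g : Sˣ)) h1 hp hm
    (UC.good hid hnil hE hH g) hnil (by
      intro b _
      rw [UC.inn_pow, hg']
      simp)
  obtain ⟨H₀, h3, h4, h5⟩ := p_GEN S T t1 t3
  let N : Subgroup H :=
    { carrier := {h | (((h : H) : Sˣ) : S) - 1 ∈ I}
      one_mem' := by
        show (((1 : H) : Sˣ) : S) - 1 ∈ I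
        simp
      mul_mem' := by
        intro a b ha hb
        show ((((a * b : H)) : Sˣ) : S) - 1 ∈ I
        have e1 : ((((a * b : H)) : Sˣ) : S) - 1
            = ((a : Sˣ) : S) * (((b : Sˣ) : S) - 1) + (((a : Sˣ) : S) - 1) := by
          rw [Subgroup.coe_mul, Units.val_mul]; noncomm_ring
        rw [e1]
        exact I.add_mem (hid.left _ _ hb) ha
      inv_mem' := by
        intro a ha
        show ((((a⁻¹ : H)) : Sˣ) : S) - 1 ∈ I
        have e1 : ((((a⁻¹ : H)) : Sˣ) : S) - 1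
            = - ((((a : Sˣ)⁻¹ : Sˣ) : S) * (((a : Sˣ) : S) - 1)) := by
          rw [Subgroup.coe_inv, mul_sub, Units.inv_mul]; noncomm_ring
        rw [e1]
        exact I.neg_mem (hid.left _ _ ha) }
  have hN : ∀ h : H, h ∈ N ↔ ((h : Sˣ) : S) - 1 ∈ I := fun _ => Iff.rfl
  have hNn : N.Normal := by
    constructor
    intro a ha h
    rw [hN] at ha ⊢
    have e1 : ((((h * a * h⁻¹ : H)) : Sˣ) : S) - 1
        = ((h : Sˣ) : S) * (((a : Sˣ) : S) - 1) * (((h : Sˣ)⁻¹ : Sˣ) : S) := by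
      rw [Subgroup.coe_mul, Subgroup.coe_mul, Subgroup.coe_inv, Units.val_mul, Units.val_mul,
        mul_sub, sub_mul, mul_one, Units.mul_inv]
    rw [e1]
    exact hid.right _ _ (hid.left _ _ ha)
  have hLn : (H₀.subgroupOf H).Normal := by
    have := h3
    infer_instance
  have hmem : ∀ h : H, h ∈ H₀.subgroupOf H ↔ ((h : Sˣ) : S) - 1 ∈ T := by
    intro h
    rw [Subgroup.mem_subgroupOf, h5]
  have hLs : Group.IsSolvable (H₀.subgroupOf H) := by
    have h8 : Group.IsSolvable H₀ := by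
      have := h4
      infer_instance
    have := h8
    have hinj : Function.Injective
        ((H.subtype.comp (H₀.subgroupOf H).subtype).codRestrict H₀ (fun x => x.2)) := by
      intro a b hab
      apply Subtype.ext
      apply Subtype.ext
      exact congrArg (fun x : H₀ => (x : Sˣ)) hab
    exact Group.isSolvable_of_isSolvable_injective hinj
  have hQs : Group.IsSolvable (H ⧸ N) := by
    apply UC.metab
    intro a b c d
    obtain ⟨a, rfl⟩ := QuotientGroup.mk'_surjective N a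
    obtain ⟨b, rfl⟩ := QuotientGroup.mk'_surjective N b
    obtain ⟨c, rfl⟩ := QuotientGroup.mk'_surjective N c
    obtain ⟨d, rfl⟩ := QuotientGroup.mk'_surjective N d
    rw [← map_commutatorElement, ← map_commutatorElement, ← map_commutatorElement]
    exact (QuotientGroup.eq_one_iff _).2 (hmet a b c d)
  refine p_GRH H N (H₀.subgroupOf H) hLn ?_ hLs hQs g ?_
  · intro x hx
    rw [hN]
    exact t2 ((hmem x).1 hx)
  · intro x hx
    rw [hmem]
    have h6 := t5 _ ((hN x).1 hx)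
    rw [pow_one, dl_apply, UC.inn_apply] at h6
    have e1 : (((x⁻¹ * g⁻¹ * x * g : H) : Sˣ) : S) - 1
        = (((x : Sˣ)⁻¹ : Sˣ) : S) * ((((g : Sˣ)⁻¹ : Sˣ) : S) * (((x : Sˣ) : S) - 1) * ((g : Sˣ) : S)
          - (((x : Sˣ) : S) - 1)) := by
      have e2 : (((g : Sˣ)⁻¹ : Sˣ) : S) * (((x : Sˣ) : S) - 1) * ((g : Sˣ) : S)
          = (((g : Sˣ)⁻¹ : Sˣ) : S) * ((x : Sˣ) : S) * ((g : Sˣ) : S) - 1 := by
        rw [mul_sub, sub_mul, mul_one, Units.inv_mul]
      rw [e2]
      have e3 : (((g : Sˣ)⁻¹ : Sˣ) : S) * ((x : Sˣ) : S) * ((g : Sˣ) : S) - 1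
          - (((x : Sˣ) : S) - 1)
          = (((g : Sˣ)⁻¹ : Sˣ) : S) * ((x : Sˣ) : S) * ((g : Sˣ) : S) - ((x : Sˣ) : S) := by abel
      rw [e3, mul_sub, Units.inv_mul]
      simp only [Subgroup.coe_mul, Subgroup.coe_inv, Units.val_mul, mul_assoc]
    rw [e1]
    exact t1.left _ _ h6

end Pool.EU
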